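import Pool.Agent.FRE.Stmts

/-!
# Row PUL of squad FRE (MP_1fc801_co)
-/

set_option autoImplicit false

namespace Pool.Agent.FRE.H32

theorem sum_single {M : Type} [AddCommGroup M] {d : ℕ} (h : Fin d → M) (x : Fin d → ℤ)
    (i : Fin d) :
    ∑ j, ((x + Pi.single i 1 : Fin d → ℤ) j) • h j = ∑ j, x j • h j + h i := by
  have e : ∀ j, ((x + Pi.single i 1 : Fin d → ℤ) j) • h j =
      x j • h j + (if j = i then h j else 0) := by
    intro j
    rw [Pi.add_apply, add_smul]
    by_cases hj : j = i
    · subst hj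
      simp
    · simp [hj]
  rw [Finset.sum_congr rfl (fun j _ => e j), Finset.sum_add_distrib,
    Finset.sum_ite_eq' Finset.univ i h]
  simp

/-- representable elements -/
def Rp {N : ℕ} (A : Finset ℂ) (g : ℂ → ZMod N) (u : ZMod N) : Prop :=
  ∃ a ∈ A, ∃ b ∈ A, ∃ c ∈ A, ∃ e ∈ A, u = g a + g b - g c - g e

open Classical in
/-- the inverse map -/
noncomputable def FF {N : ℕ} (A : Finset ℂ) (g : ℂ → ZMod N) (u : ZMod N) : ℂ :=
  if h : ∃ z : ℂ, ∃ a ∈ A, ∃ b ∈ A, ∃ c ∈ A, ∃ e ∈ A, u = g a + g b - g c - g e ∧ z = a + b - c - e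
  then h.choose else 0

theorem iso4 {N : ℕ} {A : Finset ℂ} {g : ℂ → ZMod N} (hg : Iso8 A g) {a₀ : ℂ} (h₀ : a₀ ∈ A)
    {a b c e a' b' c' e' : ℂ} (ha : a ∈ A) (hb : b ∈ A) (hc : c ∈ A) (he : e ∈ A)
    (ha' : a' ∈ A) (hb' : b' ∈ A) (hc' : c' ∈ A) (he' : e' ∈ A) :
    g a + g b - g c - g e = g a' + g b' - g c' - g e' ↔ a + b - c - e = a' + b' - c' - e' := by
  have h := hg ![a, b, c', e', a₀, a₀, a₀, a₀] ![a', b', c, e, a₀, a₀, a₀, a₀]
    (by intro i; fin_cases i <;> simpa) (by intro i; fin_cases i <;> simpa)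
  simp only [Fin.sum_univ_eight] at h
  have h2 : (g a + g b + g c' + g e' + g a₀ + g a₀ + g a₀ + g a₀ =
      g a' + g b' + g c + g e + g a₀ + g a₀ + g a₀ + g a₀) ↔
      (a + b + c' + e' + a₀ + a₀ + a₀ + a₀ = a' + b' + c + e + a₀ + a₀ + a₀ + a₀) := h
  constructor
  · intro hh
    have := h2.1 (by linear_combination hh)
    linear_combination this
  · intro hh
    have := h2.2 (by linear_combination hh)
    linear_combination this

theorem FF_spec {N : ℕ} {A : Finset ℂ} {g : ℂ → ZMod N} (hg : Iso8 A g) {a b c e : ℂ}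
    (ha : a ∈ A) (hb : b ∈ A) (hc : c ∈ A) (he : e ∈ A) :
    FF A g (g a + g b - g c - g e) = a + b - c - e := by
  have h : ∃ z : ℂ, ∃ a' ∈ A, ∃ b' ∈ A, ∃ c' ∈ A, ∃ e' ∈ A,
      g a + g b - g c - g e = g a' + g b' - g c' - g e' ∧ z = a' + b' - c' - e' :=
    ⟨_, a, ha, b, hb, c, hc, e, he, rfl, rfl⟩
  unfold FF
  rw [dif_pos h]
  obtain ⟨a', ha', b', hb', c', hc', e', he', h1, h2⟩ := h.choose_spec
  rw [h2]
  exact ((iso4 hg ha ha hb hc he ha' hb' hc' he').1 h1).symm

theorem FF_zero {N : ℕ} {A : Finset ℂ} {g : ℂ → ZMod N} (hg : Iso8 A g) {a₀ : ℂ} (h₀ : a₀ ∈ A) :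
    FF A g 0 = 0 := by
  have h := FF_spec hg h₀ h₀ h₀ h₀
  have e1 : g a₀ + g a₀ - g a₀ - g a₀ = 0 := by ring
  have e2 : a₀ + a₀ - a₀ - a₀ = 0 := by ring
  rwa [e1, e2] at h

theorem FF_inj {N : ℕ} {A : Finset ℂ} {g : ℂ → ZMod N} (hg : Iso8 A g) {u v : ZMod N}
    (hu : Rp A g u) (hv : Rp A g v) (h : FF A g u = FF A g v) : u = v := by
  obtain ⟨a, ha, b, hb, c, hc, e, he, rfl⟩ := hu
  obtain ⟨a', ha', b', hb', c', hc', e', he', rfl⟩ := hv
  rw [FF_spec hg ha hb hc he, FF_spec hg ha' hb' hc' he'] at h
  exact (iso4 hg ha ha hb hc he ha' hb' hc' he').2 h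

theorem FF_add {N : ℕ} {A : Finset ℂ} {g : ℂ → ZMod N} (hg : Iso8 A g) {u v w : ZMod N}
    (hu : Rp A g u) (hv : Rp A g v) (hw : Rp A g w) (h : w = u + v) :
    FF A g w = FF A g u + FF A g v := by
  obtain ⟨a, ha, b, hb, c, hc, e, he, rfl⟩ := hu
  obtain ⟨a', ha', b', hb', c', hc', e', he', rfl⟩ := hv
  obtain ⟨a₂, ha₂, b₂, hb₂, c₂, hc₂, e₂, he₂, rfl⟩ := hw
  rw [FF_spec hg ha hb hc he, FF_spec hg ha' hb' hc' he', FF_spec hg ha₂ hb₂ hc₂ he₂]
  have h3 := hg ![a₂, b₂, c, e, c', e', a, a] ![a, b, a', b', c₂, e₂, a, a]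
    (by intro i; fin_cases i <;> simpa) (by intro i; fin_cases i <;> simpa)
  simp only [Fin.sum_univ_eight] at h3
  have h4 : (g a₂ + g b₂ + g c + g e + g c' + g e' + g a + g a =
      g a + g b + g a' + g b' + g c₂ + g e₂ + g a + g a) ↔
      (a₂ + b₂ + c + e + c' + e' + a + a = a + b + a' + b' + c₂ + e₂ + a + a) := h3
  have := h4.1 (by linear_combination h)
  linear_combination this

/-- **PUL** -/
theorem pul : PulStmt := by
  intro N d A g q L hg hq hrep
  have hbox0 : Box L 0 := by
    intro i
    simp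
  obtain ⟨a₀, h₀, -⟩ := hrep 0 hbox0
  have hR : ∀ x, Box L x → Rp A g (∑ i, x i • q i) := hrep
  have hkey : ∀ (n : ℕ) (x : Fin d → ℤ), ∑ i, (x i).natAbs ≤ n → Box L x →
      FF A g (∑ i, x i • q i) = ∑ i, x i • FF A g (q i) := by
    intro n
    induction n with
    | zero =>
      intro x hx _
      have hx0 : ∀ i, x i = 0 := by
        intro i
        have h1 : (x i).natAbs ≤ ∑ i, (x i).natAbs :=
          Finset.single_le_sum (f := fun i => (x i).natAbs) (fun j _ => Nat.zero_le _)
            (Finset.mem_univ i)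
        have h2 : (x i).natAbs = 0 := by omega
        exact Int.natAbs_eq_zero.1 h2
      simp only [hx0, zero_smul, Finset.sum_const_zero]
      exact FF_zero hg h₀
    | succ n ih =>
      intro x hx hb
      by_cases h0 : ∀ i, x i = 0
      · simp only [h0, zero_smul, Finset.sum_const_zero]
        exact FF_zero hg h₀
      push Not at h0
      obtain ⟨i, hi⟩ := h0
      have hLi : (1 : ℤ) ≤ L i := by
        have h1 := hb i
        have h2 : 1 ≤ |x i| := Int.one_le_abs hi
        omega
      have hsingle : Box L (Pi.single i 1) := by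
        intro j
        by_cases hj : j = i
        · subst hj
          simpa using hLi
        · simp [hj]
      have hqi : Rp A g (q i) := by
        have h1 := hR _ hsingle
        have h2 := sum_single q 0 i
        simp only [zero_add, Pi.zero_apply, zero_smul, Finset.sum_const_zero] at h2
        rwa [h2] at h1
      rcases lt_or_gt_of_ne hi with hneg | hpos
      · -- x i < 0
        set x' : Fin d → ℤ := x + Pi.single i 1 with hx'
        have hx'i : x' i = x i + 1 := by simp [hx']
        have hx'j : ∀ j, j ≠ i → x' j = x j := by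
          intro j hj
          simp [hx', hj]
        have hb' : Box L x' := by
          intro j
          by_cases hj : j = i
          · subst hj
            rw [hx'i]
            have h1 := abs_le.1 (hb j)
            rw [abs_le]
            constructor <;> omega
          · rw [hx'j j hj]
            exact hb j
        have hlt : ∑ j, (x' j).natAbs < ∑ j, (x j).natAbs := by
          refine Finset.sum_lt_sum ?_ ⟨i, Finset.mem_univ i, ?_⟩
          · intro j _
            by_cases hj : j = i
            · subst hj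
              rw [hx'i]
              omega
            · rw [hx'j j hj]
          · rw [hx'i]
            omega
        have h1 := ih x' (by omega) hb'
        have h2 : ∑ j, x' j • q j = ∑ j, x j • q j + q i := sum_single q x i
        have h3 := FF_add hg (hR x hb) hqi (hR x' hb') h2
        have h4 : ∑ j, x' j • FF A g (q j) = ∑ j, x j • FF A g (q j) + FF A g (q i) :=
          sum_single (fun j => FF A g (q j)) x i
        rw [h1, h4] at h3
        exact (add_right_cancel h3).symm
      · set x' : Fin d → ℤ := x - Pi.single i 1 with hx'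
        have hx'i : x' i = x i - 1 := by simp [hx']
        have hx'j : ∀ j, j ≠ i → x' j = x j := by
          intro j hj
          simp [hx', hj]
        have hxx : x = x' + Pi.single i 1 := by
          rw [hx']
          simp
        have hb' : Box L x' := by
          intro j
          by_cases hj : j = i
          · subst hj
            rw [hx'i]
            have h1 := abs_le.1 (hb j)
            rw [abs_le]
            constructor <;> omega
          · rw [hx'j j hj]
            exact hb j
        have hlt : ∑ j, (x' j).natAbs < ∑ j, (x j).natAbs := by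
          refine Finset.sum_lt_sum ?_ ⟨i, Finset.mem_univ i, ?_⟩
          · intro j _
            by_cases hj : j = i
            · subst hj
              rw [hx'i]
              omega
            · rw [hx'j j hj]
          · rw [hx'i]
            omega
        have h1 := ih x' (by omega) hb'
        have h2 : ∑ j, x j • q j = ∑ j, x' j • q j + q i := by
          have := sum_single q x' i
          rwa [← hxx] at this
        have h3 := FF_add hg (hR x' hb') hqi (hR x hb) h2
        have h4 : ∑ j, x j • FF A g (q j) = ∑ j, x' j • FF A g (q j) + FF A g (q i) := by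
          have := sum_single (fun j => FF A g (q j)) x' i
          rwa [← hxx] at this
        rw [h3, h1, h4]
  have hkey' : ∀ x, Box L x → FF A g (∑ i, x i • q i) = ∑ i, x i • FF A g (q i) :=
    fun x hb => hkey _ x le_rfl hb
  refine ⟨fun i => FF A g (q i), ?_, ?_⟩
  · intro x y hx hy hxy
    rw [← hkey' x hx, ← hkey' y hy] at hxy
    exact hq x y hx hy (FF_inj hg (hR x hx) (hR y hy) hxy)
  · intro x hx
    obtain ⟨a, ha, b, hb, c, hc, e, he, h⟩ := hrep x hx
    refine ⟨a, ha, b, hb, c, hc, e, he, ?_⟩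
    rw [← hkey' x hx, h, FF_spec hg ha hb hc he]

end Pool.Agent.FRE.H32
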